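import Mathlib
import Pool.Agent.N852.EL.Stm
import Pool.Agent.N852.MM.PadicR
import Pool.Agent.N868.MM.LowA

/-!
Project EL, part H: the engine from the count of the integer points in the bad loci.
-/

namespace Pool.Agent.N482.EL

set_option linter.unusedSectionVars false

open Matrix Module Filter Topology Function
open Pool.Agent.N852 (ic)
open Pool.Agent.N852.DD (Bl mem_Bl card_Bl)
open Pool.Agent.N852.MM
open Pool.Agent.N852.EL

variable {V : Type} [DecidableEq V] {n : V → ℕ} {k : ℕ} {F : Sys n k} {r : ℕ}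

/-! ### The bad loci -/

theorem lc_smul {R : Type*} [CommRing R] {r n : ℕ} (A : Fin r → Fin n → R) (c : R)
    (z : Fin r → R) : lc A (c • z) = c • lc A z := by
  funext l
  simp only [lc, Pi.smul_apply, smul_eq_mul, Finset.mul_sum, mul_assoc]

theorem mx_smul {R : Type*} [CommRing R] (A : ∀ v, Fin r → Fin (n v) → R) (S : Finset V)
    (c : V → R) (x : Tup n R) (z : V → Fin r → R) :
    mx A S (fun v => c v • x v) (fun v => c v • z v) = fun v => c v • mx A S x z v := by
  funext v
  unfold mx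
  split_ifs
  · rfl
  · exact lc_smul _ _ _

theorem Bu_smul {A : ∀ v, Fin r → Fin (n v) → ℂ} {u : V} {S : Finset V} {x : Tup n ℂ}
    {c : V → ℂ} (hc : ∀ v, c v ≠ 0) (h : Bu F A u S x) : Bu F A u S (fun v => c v • x v) := by
  obtain ⟨z, s, hz, hs, h1, h2⟩ := h
  have hp : ∀ i : Wi F u, ∏ w ∈ (F.e i.1).erase u, c w ≠ 0 := fun i =>
    Finset.prod_ne_zero_iff.2 fun w _ => hc w
  refine ⟨fun v => c v • z v, fun i => s i * (∏ w ∈ (F.e i.1).erase u, c w)⁻¹,
    fun v => smul_ne_zero (hc v) (hz v), ?_, ?_, ?_⟩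
  · intro h0
    apply hs
    funext i
    have h3 := congrFun h0 i
    simp only [Pi.zero_apply, mul_eq_zero, inv_eq_zero] at h3 ⊢
    exact h3.resolve_right (hp i)
  · rw [mx_smul]
    intro i hi
    rw [ev_smul, h1 i hi, mul_zero]
  · intro l
    rw [mx_smul, ← h2 l]
    refine Finset.sum_congr rfl fun i _ => ?_
    change _ * dd F i.1 u _ l = _ * dd F i.1 u _ l
    rw [dd_smul i.1 i.2, Pi.smul_apply, smul_eq_mul]
    have := hp i
    field_simp

theorem BS_smul {A : ∀ v, Fin r → Fin (n v) → ℂ} {S : Finset V} {x : Tup n ℂ}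
    {c : V → ℂ} (hc : ∀ v, c v ≠ 0) : BS F A S (fun v => c v • x v) ↔ BS F A S x := by
  constructor
  · rintro ⟨u, hu, h⟩
    refine ⟨u, hu, ?_⟩
    have h1 := Bu_smul (c := fun v => (c v)⁻¹) (fun v => inv_ne_zero (hc v)) h
    have h2 : (fun v => (c v)⁻¹ • c v • x v) = x := by
      funext v
      rw [smul_smul, inv_mul_cancel₀ (hc v), one_smul]
    rwa [h2] at h1
  · rintro ⟨u, hu, h⟩
    exact ⟨u, hu, Bu_smul hc h⟩

theorem mx_congr {R : Type*} [CommRing R] (A : ∀ v, Fin r → Fin (n v) → R) {S : Finset V}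
    {x y : Tup n R} (h : ∀ v ∈ S, x v = y v) (z : V → Fin r → R) : mx A S x z = mx A S y z := by
  funext v
  unfold mx
  split_ifs with hv
  · exact h v hv
  · rfl

theorem BS_congr {A : ∀ v, Fin r → Fin (n v) → ℂ} {S : Finset V} {x y : Tup n ℂ}
    (h : ∀ v ∈ S, x v = y v) : BS F A S x ↔ BS F A S y := by
  unfold BS Bu
  simp only [mx_congr A h]

theorem cT_apply (x : Tup n ℤ) (v : V) (l : Fin (n v)) : cT x v l = ((x v l : ℤ) : ℂ) := rfl

theorem cT_congr {x y : Tup n ℤ} {v : V} (h : x v = y v) : cT x v = cT y v := by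
  funext l
  rw [cT_apply, cT_apply, h]

theorem BS_update {A : ∀ v, Fin r → Fin (n v) → ℂ} {S : Finset V} {v : V} (hv : v ∉ S)
    (x : Tup n ℤ) (z : Fin (n v) → ℤ) : BS F A S (cT (update x v z)) ↔ BS F A S (cT x) := by
  apply BS_congr
  intro w hw
  apply cT_congr
  rw [update_of_ne]
  rintro rfl
  exact hv hw

theorem cT_smul (x : Tup n ℤ) (c : V → ℤ) :
    cT (fun u => c u • x u) = fun u => (c u : ℂ) • cT x u := by
  funext u l
  simp [cT_apply]

theorem GS_update (A : ∀ v, Fin r → Fin (n v) → ℤ) [Fintype V] (v : V) (x : Tup n ℤ)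
    (z : Fin (n v) → ℤ) : GS F A v (update x v z) ↔ GS F A v x := by
  unfold GS
  rw [GI_update]
  refine and_congr_right fun _ => forall_congr' fun S => forall_congr' fun hS => ?_
  rw [BS_update hS]

theorem GS_smul (A : ∀ v, Fin r → Fin (n v) → ℤ) [Fintype V] (v : V) (x : Tup n ℤ)
    (c : V → ℤ) (hc : ∀ u, c u ≠ 0) : GS F A v (fun u => c u • x u) ↔ GS F A v x := by
  unfold GS
  rw [GI_smul v x c hc]
  refine and_congr_right fun _ => forall_congr' fun S => forall_congr' fun hS => ?_
  rw [cT_smul, BS_smul fun u => by exact_mod_cast hc u]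

theorem ev_cT (i : Fin k) (x : Tup n ℤ) : ev F i (cT x) = ((ev F i x : ℤ) : ℂ) :=
  ev_map (Int.castRingHom ℂ) i x

theorem dd_cT (i : Fin k) (v : V) (x : Tup n ℤ) (l : Fin (n v)) :
    dd F i v (cT x) l = ((dd F i v x l : ℤ) : ℂ) :=
  congrFun (dd_map (Int.castRingHom ℂ) i v x) l

/-- A family with a bad vector is in one of the bad loci. -/
theorem bad_of [Fintype V] (A : ∀ v, Fin r → Fin (n v) → ℤ) (hr : 1 ≤ r) {u : V} {x : Tup n ℤ}
    (hx : Inc F x) (h : ¬ GS F A u x) : ∃ S : Finset V, u ∉ S ∧ BS F (cA A) S (cT x) := by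
  by_cases hG : GI F u x
  · unfold GS at h
    push Not at h
    exact h hG
  · refine ⟨Finset.univ.erase u, Finset.notMem_erase _ _, u, Finset.notMem_erase _ _, ?_⟩
    unfold GI at hG
    rw [Fintype.not_linearIndependent_iff] at hG
    obtain ⟨g, hg, i₀, hi₀⟩ := hG
    have hmx : ∀ z : V → Fin r → ℂ, mx (cA A) (Finset.univ.erase u) (cT x) z =
        update (cT x) u (lc (cA A u) (z u)) := by
      intro z
      funext v
      unfold mx
      by_cases hv : v = u
      · subst hv
        rw [if_neg (Finset.notMem_erase _ _), update_self]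
      · rw [if_pos (Finset.mem_erase.2 ⟨hv, Finset.mem_univ _⟩), update_of_ne hv]
    refine ⟨fun _ _ => 1, fun i => (g i : ℂ), fun v h0 => ?_, fun h0 => ?_, ?_, ?_⟩
    · have := congrFun h0 ⟨0, hr⟩
      simp at this
    · apply hi₀
      have := congrFun h0 i₀
      simpa using this
    · rw [hmx, incN_update]
      intro i _
      rw [ev_cT, hx i, Int.cast_zero]
    · intro l
      rw [hmx, der_update]
      have h1 := congrFun hg l
      simp only [Finset.sum_apply, Pi.smul_apply, smul_eq_mul, Pi.zero_apply] at h1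
      have h2 : ∀ i : Wi F u, (g i : ℂ) * der F u (cT x) i l =
          ((g i * der F u (iT x) i l : ℝ) : ℂ) := by
        intro i
        change (g i : ℂ) * dd F i.1 u (cT x) l = ((g i * dd F i.1 u (iT x) l : ℝ) : ℂ)
        rw [dd_cT, dd_iT]
        simp [ic]
      rw [Finset.sum_congr rfl fun i _ => h2 i, ← Complex.ofReal_sum, h1, Complex.ofReal_zero]

/-! ### The counts -/

variable [Fintype V]

open Classical in
/-- The families which become bad with the vector `v`. -/
noncomputable def EX (F : Sys n k) (A : ∀ v, Fin r → Fin (n v) → ℤ) (S : Finset V) (v : V)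
    (X : V → ℝ) : Finset (Tup n ℤ) :=
  (Bx n X).filter fun x => ¬ BS F (cA A) S (cT x) ∧ BS F (cA A) (insert v S) (cT x)

theorem card_Bx_update {X : V → ℝ} (hX : ∀ u, 1 ≤ X u) (v : V) :
    ((Bx n (update X v 0)).card : ℝ) * X v ^ n v ≤ 3 ^ (∑ t, n t) * ∏ t, X t ^ n t := by
  have hX0 : ∀ u, 0 ≤ X u := fun u => by linarith [hX u]
  unfold Bx
  rw [Fintype.card_piFinset]
  push_cast
  rw [← Finset.mul_prod_erase Finset.univ _ (Finset.mem_univ v), update_self,
    Pool.Agent.N868.MM.card_Bl_zero, Nat.cast_one, one_mul,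
    ← Finset.mul_prod_erase Finset.univ (fun t => X t ^ n t) (Finset.mem_univ v)]
  have h1 : ∏ t ∈ Finset.univ.erase v, ((Bl (n t) (update X v 0 t)).card : ℝ) ≤
      ∏ t ∈ Finset.univ.erase v, (3 * X t) ^ n t := by
    refine Finset.prod_le_prod (fun _ _ => Nat.cast_nonneg _) fun t ht => ?_
    rw [update_of_ne (Finset.ne_of_mem_erase ht)]
    exact card_Bl (hX t)
  have h2 : ∏ t ∈ Finset.univ.erase v, (3 * X t) ^ n t =
      3 ^ (∑ t ∈ Finset.univ.erase v, n t) * ∏ t ∈ Finset.univ.erase v, X t ^ n t := by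
    rw [← Finset.prod_pow_eq_pow_sum, ← Finset.prod_mul_distrib]
    exact Finset.prod_congr rfl fun t _ => mul_pow _ _ _
  have h3 : (3 : ℝ) ^ (∑ t ∈ Finset.univ.erase v, n t) ≤ 3 ^ (∑ t, n t) := by
    apply pow_le_pow_right₀ (by norm_num)
    exact Finset.sum_le_sum_of_subset (Finset.erase_subset _ _)
  have h4 : 0 ≤ ∏ t ∈ Finset.univ.erase v, X t ^ n t :=
    Finset.prod_nonneg fun t _ => pow_nonneg (hX0 t) _
  calc (∏ t ∈ Finset.univ.erase v, ((Bl (n t) (update X v 0 t)).card : ℝ)) * X v ^ n v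
      ≤ (3 ^ (∑ t, n t) * ∏ t ∈ Finset.univ.erase v, X t ^ n t) * X v ^ n v := by
        refine mul_le_mul_of_nonneg_right (h1.trans (h2.le.trans ?_)) (pow_nonneg (hX0 v) _)
        exact mul_le_mul_of_nonneg_right h3 h4
    _ = _ := by ring

/-- **The number of families which become bad with the vector `v`.** -/
theorem card_EX (h : CntBS) (F : Sys n k) (A : ∀ v, Fin r → Fin (n v) → ℤ) (hr : 1 ≤ r)
    (hn : ∀ v, r ≤ n v) : ∃ C : ℝ, 0 ≤ C ∧ ∀ (S : Finset V) (v : V), v ∉ S →
      ∀ X : V → ℝ, (∀ u, 1 ≤ X u) →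
        ((EX F A S v X).card : ℝ) * X v ^ r ≤ C * ∏ t, X t ^ n t := by
  classical
  obtain ⟨C, hC, hcnt⟩ := h V n k F r A hr hn
  refine ⟨C * 3 ^ (∑ t, n t), by positivity, ?_⟩
  intro S v hv X hX
  have hX0 : ∀ u, 0 ≤ X u := fun u => by linarith [hX u]
  set Y : Finset (Tup n ℤ) := (Bx n (update X v 0)).filter fun y => ¬ BS F (cA A) S (cT y) with hY
  set Z : Tup n ℤ → Finset (Fin (n v) → ℤ) := fun y =>
    (Bl (n v) (X v)).filter fun z => BS F (cA A) (insert v S) (cT (update y v z)) with hZ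
  have h1 : (EX F A S v X).card ≤ (Y.sigma Z).card := by
    refine Finset.card_le_card_of_injOn (fun x => ⟨update x v 0, x v⟩) ?_ ?_
    · intro x hx
      rw [Finset.mem_coe] at hx
      unfold EX at hx
      rw [Finset.mem_filter, mem_Bx hX0] at hx
      obtain ⟨h1, h2, h3⟩ := hx
      rw [Finset.mem_coe, Finset.mem_sigma]
      refine ⟨?_, ?_⟩
      · rw [hY, Finset.mem_filter, mem_Bx (update_nonneg hX0 v le_rfl)]
        refine ⟨fun t => ?_, ?_⟩
        · simp only
          by_cases ht : t = v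
          · subst ht
            rw [update_self, update_self, ic_zero, norm_zero]
          · rw [update_of_ne ht, update_of_ne ht]
            exact h1 t
        · simp only
          rw [BS_update hv]
          exact h2
      · simp only [hZ]
        rw [Finset.mem_filter, mem_Bl (hX0 v), update_idem, update_eq_self]
        exact ⟨h1 v, h3⟩
    · intro x _ x' _ hxx
      simp only [Sigma.mk.injEq, heq_eq_eq] at hxx
      obtain ⟨h3, h4⟩ := hxx
      have e1 : x = update (update x v 0) v (x v) := by rw [update_idem, update_eq_self]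
      have e2 : x' = update (update x' v 0) v (x' v) := by rw [update_idem, update_eq_self]
      rw [e1, e2, h3, h4]
  have h2 : ∀ y ∈ Y, ((Z y).card : ℝ) ≤ C * X v ^ (n v - r) := by
    intro y hy
    rw [hY, Finset.mem_filter] at hy
    have := hcnt S v hv y hy.2 (X v) (hX v)
    simp only [hZ]
    convert this using 3
  have h3 : ((EX F A S v X).card : ℝ) ≤ ((Bx n (update X v 0)).card : ℝ) *
      (C * X v ^ (n v - r)) := by
    calc ((EX F A S v X).card : ℝ) ≤ ((Y.sigma Z).card : ℝ) := by exact_mod_cast h1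
      _ = ∑ y ∈ Y, ((Z y).card : ℝ) := by
        rw [Finset.card_sigma]
        push_cast
        rfl
      _ ≤ ∑ _y ∈ Y, C * X v ^ (n v - r) := Finset.sum_le_sum h2
      _ = (Y.card : ℝ) * (C * X v ^ (n v - r)) := by rw [Finset.sum_const, nsmul_eq_mul]
      _ ≤ _ := by
        have h4 : (Y.card : ℝ) ≤ ((Bx n (update X v 0)).card : ℝ) := by
          exact_mod_cast Finset.card_le_card (Finset.filter_subset _ _)
        have := hX0 v
        gcongr
  have h5 := card_Bx_update (n := n) hX v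
  have h6 : X v ^ (n v - r) * X v ^ r = X v ^ n v := by
    rw [← pow_add, Nat.sub_add_cancel (hn v)]
  calc ((EX F A S v X).card : ℝ) * X v ^ r
      ≤ (((Bx n (update X v 0)).card : ℝ) * (C * X v ^ (n v - r))) * X v ^ r :=
        mul_le_mul_of_nonneg_right h3 (pow_nonneg (hX0 v) _)
    _ = C * (((Bx n (update X v 0)).card : ℝ) * X v ^ n v) := by
        rw [← h6]
        ring
    _ ≤ C * (3 ^ (∑ t, n t) * ∏ t, X t ^ n t) := mul_le_mul_of_nonneg_left h5 hC
    _ = _ := by ring

/-- The product of the powers. -/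
theorem prod_le {a : V → ℕ} {D : ℕ} (ha : ∀ v, a v + dg F v = n v)
    (hD : D = ∑ i, (F.e i).card) {v : V} {X : V → ℝ} {g : ℝ} (hX : ∀ u, 1 ≤ X u)
    (hXg : ∀ u, X u ≤ g * X v) : ∏ t, X t ^ n t ≤ Nm a X * (g ^ D * X v ^ D) := by
  have hX0 : ∀ u, 0 ≤ X u := fun u => by linarith [hX u]
  have h1 : ∏ t, X t ^ n t = Nm a X * ∏ t, X t ^ dg F t := by
    unfold Nm
    rw [← Finset.prod_mul_distrib]
    exact Finset.prod_congr rfl fun t _ => by rw [← ha t, pow_add]
  have h2 : ∏ t, X t ^ dg F t ≤ g ^ D * X v ^ D := by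
    calc ∏ t, X t ^ dg F t ≤ ∏ t, (g * X v) ^ dg F t :=
          Finset.prod_le_prod (fun t _ => pow_nonneg (hX0 t) _) fun t _ =>
            pow_le_pow_left₀ (hX0 t) (hXg t) _
      _ = (g * X v) ^ D := by
          rw [Finset.prod_pow_eq_pow_sum, Pool.Agent.N868.MM.sum_dg, hD]
      _ = _ := mul_pow _ _ _
  rw [h1]
  exact mul_le_mul_of_nonneg_left h2 (Nm_pos fun v => by linarith [hX v]).le

/-- **EL/H: the engine.** -/
theorem engS (h : CntBS) : EngS := by
  classical
  intro V _ _ n k F a D A h2 hv ha hD hn hne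
  obtain ⟨C, hC, hcnt⟩ := card_EX h F A (Nat.succ_pos D) hn
  refine ⟨ha, ?_, GS_update A, GS_smul A, fun x hx v => GI_ne h2 hv x (fun u => (hx u).1) v,
    fun v x h => h.1, ?_, ?_⟩
  · intro v
    have h3 : ∑ i : Fin k, 2 ≤ ∑ i, (F.e i).card := Finset.sum_le_sum fun i _ => h2 i
    simp at h3
    have h4 := ha v
    have h5 : dg F v ≤ k := by
      unfold dg
      have := Fintype.card_subtype_le (fun i : Fin k => v ∈ F.e i)
      simpa using this
    have h6 : 0 < dg F v := by
      obtain ⟨i, hi⟩ := hv v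
      exact Fintype.card_pos_iff.2 ⟨⟨i, hi⟩⟩
    have h7 := hn v
    omega
  · refine ⟨(Fintype.card (Finset V) : ℝ) * C, by positivity, ?_⟩
    intro v X g hX hg hXg
    have hX0 : ∀ u, 0 ≤ X u := fun u => by linarith [hX u]
    have hXv : 0 < X v := by linarith [hX v]
    have hsub : TX F (GS F A) v X \ UX F (GS F A) X ⊆
        Finset.univ.biUnion fun S : Finset V => if v ∈ S then ∅ else EX F A S v X := by
      intro x hx
      rw [Finset.mem_sdiff, mem_TX hX0, mem_UX hX0] at hx
      obtain ⟨⟨h3, h4, h5, h6⟩, h7⟩ := hx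
      have h8 : ∃ u, ¬ GS F A u x := by
        by_contra hc
        push Not at hc
        exact h7 ⟨h3, h4, hc⟩
      obtain ⟨u, hu⟩ := h8
      obtain ⟨S, _, hS⟩ := bad_of A (Nat.succ_pos D) h4 hu
      have hvS : v ∈ S := by
        by_contra hc
        exact h5.2 S hc hS
      rw [Finset.mem_biUnion]
      refine ⟨S.erase v, Finset.mem_univ _, ?_⟩
      rw [if_neg (Finset.notMem_erase _ _)]
      unfold EX
      rw [Finset.mem_filter, mem_Bx hX0, Finset.insert_erase hvS]
      exact ⟨h3, h5.2 _ (Finset.notMem_erase _ _), hS⟩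
    have hle : (((TX F (GS F A) v X \ UX F (GS F A) X).card : ℕ) : ℝ) * X v ^ (D + 1) ≤
        (Fintype.card (Finset V) : ℝ) * (C * ∏ t, X t ^ n t) := by
      have h3 := (Finset.card_le_card hsub).trans Finset.card_biUnion_le
      have h4 : (((TX F (GS F A) v X \ UX F (GS F A) X).card : ℕ) : ℝ) ≤
          ∑ S : Finset V, ((if v ∈ S then ∅ else EX F A S v X).card : ℝ) := by
        exact_mod_cast h3
      calc (((TX F (GS F A) v X \ UX F (GS F A) X).card : ℕ) : ℝ) * X v ^ (D + 1)
          ≤ (∑ S : Finset V, ((if v ∈ S then ∅ else EX F A S v X).card : ℝ)) * X v ^ (D + 1) := by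
            gcongr
        _ = ∑ S : Finset V, ((if v ∈ S then ∅ else EX F A S v X).card : ℝ) * X v ^ (D + 1) := by
            rw [Finset.sum_mul]
        _ ≤ ∑ _S : Finset V, C * ∏ t, X t ^ n t := by
            refine Finset.sum_le_sum fun S _ => ?_
            split_ifs with hS
            · rw [Finset.card_empty, Nat.cast_zero, zero_mul]
              have : 0 ≤ ∏ t, X t ^ n t := Finset.prod_nonneg fun t _ => pow_nonneg (hX0 t) _
              positivity
            · exact hcnt S v hS X hX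
        _ = _ := by
            rw [Finset.sum_const, nsmul_eq_mul, Finset.card_univ]
    have hpr := prod_le ha hD hX hXg
    have hX1 : X v ^ (D + 1) = X v ^ D * X v := pow_succ _ _
    have h9 : (((TX F (GS F A) v X \ UX F (GS F A) X).card : ℕ) : ℝ) * X v ≤
        (Fintype.card (Finset V) : ℝ) * C * (Nm a X * g ^ D) := by
      apply le_of_mul_le_mul_right _ (pow_pos hXv D)
      calc (((TX F (GS F A) v X \ UX F (GS F A) X).card : ℕ) : ℝ) * X v * X v ^ D
          = (((TX F (GS F A) v X \ UX F (GS F A) X).card : ℕ) : ℝ) * X v ^ (D + 1) := by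
            rw [hX1]
            ring
        _ ≤ _ := hle
        _ ≤ (Fintype.card (Finset V) : ℝ) * (C * (Nm a X * (g ^ D * X v ^ D))) := by
            gcongr
        _ = _ := by ring
    rw [show (Fintype.card (Finset V) : ℝ) * C * Nm a X * (g ^ D / X v) =
      ((Fintype.card (Finset V) : ℝ) * C * (Nm a X * g ^ D)) / X v by ring, le_div_iff₀ hXv]
    exact h9
  · -- the lower bound
    obtain ⟨C₁, hC₁, hpig⟩ := Pool.Agent.N868.MM.pigeon F h2
    have hS : ∀ S : Finset V, ∃ C₂ : ℝ, 0 ≤ C₂ ∧ ∀ K : ℝ, 1 ≤ K →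
        ((((Bx n fun _ => K).filter fun x => BS F (cA A) S (cT x)).card : ℕ) : ℝ) *
          K ^ (D + 1) ≤ C₂ * K ^ (∑ t, n t) := by
      intro S
      induction S using Finset.induction_on with
      | empty =>
        refine ⟨0, le_rfl, fun K _ => ?_⟩
        rw [Finset.filter_false_of_mem fun x _ => hne (cT x)]
        simp
      | insert v S hvS ih =>
        obtain ⟨C₂, hC₂, hih⟩ := ih
        refine ⟨C₂ + C, by positivity, fun K hK => ?_⟩
        have hK0 : 0 ≤ K := by linarith
        have h3 : ((Bx n fun _ => K).filter fun x => BS F (cA A) (insert v S) (cT x)) ⊆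
            ((Bx n fun _ => K).filter fun x => BS F (cA A) S (cT x)) ∪
              EX F A S v fun _ => K := by
          intro x hx
          rw [Finset.mem_filter] at hx
          rw [Finset.mem_union, Finset.mem_filter]
          by_cases hc : BS F (cA A) S (cT x)
          · exact Or.inl ⟨hx.1, hc⟩
          · right
            unfold EX
            rw [Finset.mem_filter]
            exact ⟨hx.1, hc, hx.2⟩
        have h4 : ((((Bx n fun _ => K).filter fun x =>
            BS F (cA A) (insert v S) (cT x)).card : ℕ) : ℝ) ≤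
            ((((Bx n fun _ => K).filter fun x => BS F (cA A) S (cT x)).card : ℕ) : ℝ) +
              ((EX F A S v fun _ => K).card : ℝ) := by
          exact_mod_cast (Finset.card_le_card h3).trans (Finset.card_union_le _ _)
        have h5 := hcnt S v hvS (fun _ => K) fun _ => hK
        rw [Finset.prod_pow_eq_pow_sum] at h5
        calc ((((Bx n fun _ => K).filter fun x =>
            BS F (cA A) (insert v S) (cT x)).card : ℕ) : ℝ) * K ^ (D + 1)
            ≤ (((((Bx n fun _ => K).filter fun x => BS F (cA A) S (cT x)).card : ℕ) : ℝ) +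
              ((EX F A S v fun _ => K).card : ℝ)) * K ^ (D + 1) := by gcongr
          _ = ((((Bx n fun _ => K).filter fun x => BS F (cA A) S (cT x)).card : ℕ) : ℝ) *
                K ^ (D + 1) + ((EX F A S v fun _ => K).card : ℝ) * K ^ (D + 1) := by ring
          _ ≤ C₂ * K ^ (∑ t, n t) + C * K ^ (∑ t, n t) := add_le_add (hih K hK) h5
          _ = _ := by ring
    choose C₂ hC₂ hbad using hS
    set C₃ : ℝ := ∑ S, C₂ S with hC₃
    have hC₃0 : 0 ≤ C₃ := Finset.sum_nonneg fun S _ => hC₂ S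
    refine ⟨1 / (2 * C₁), 1 + 2 * C₁ * C₃, by positivity, ?_, ?_⟩
    · have : 0 ≤ 2 * C₁ * C₃ := by positivity
      linarith
    intro K hK
    have hK1 : 1 ≤ K := by
      have : 0 ≤ 2 * C₁ * C₃ := by positivity
      linarith
    have hK0 : 0 < K := by linarith
    set NN := ∑ t, n t with hNN
    set Sol := Pool.Agent.N868.MM.SA F K Finset.univ with hSol
    have hSm : ∀ x, x ∈ Sol ↔ (∀ t, ‖ic (x t)‖ ≤ K) ∧ Inc F x := by
      intro x
      rw [hSol, Pool.Agent.N868.MM.mem_SA hK0.le]
      constructor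
      · rintro ⟨h3, _, h4⟩
        exact ⟨fun t => h3 t (Finset.mem_univ _), fun i => h4 i (Finset.subset_univ _)⟩
      · rintro ⟨h3, h4⟩
        exact ⟨fun t _ => h3 t, fun t ht => absurd (Finset.mem_univ _) ht, fun i _ => h4 i⟩
    have hcov : Sol ⊆ UX F (GS F A) (fun _ => K) ∪ Finset.univ.biUnion fun S : Finset V =>
        (Bx n fun _ => K).filter fun x => BS F (cA A) S (cT x) := by
      intro x hx
      have hx' := (hSm x).1 hx
      rw [Finset.mem_union, mem_UX (fun _ => hK0.le)]
      by_cases h3 : ∀ u, GS F A u x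
      · exact Or.inl ⟨hx'.1, hx'.2, h3⟩
      · right
        push Not at h3
        obtain ⟨u, hu⟩ := h3
        obtain ⟨S, _, hS⟩ := bad_of A (Nat.succ_pos D) hx'.2 hu
        rw [Finset.mem_biUnion]
        refine ⟨S, Finset.mem_univ _, ?_⟩
        rw [Finset.mem_filter, mem_Bx fun _ => hK0.le]
        exact ⟨hx'.1, hS⟩
    have hcard : (Sol.card : ℝ) ≤ ((UX F (GS F A) (fun _ => K)).card : ℝ) +
        ∑ S : Finset V, ((((Bx n fun _ => K).filter fun x =>
          BS F (cA A) S (cT x)).card : ℕ) : ℝ) := by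
      have h3 := (Finset.card_le_card hcov).trans ((Finset.card_union_le _ _).trans
        (Nat.add_le_add_left Finset.card_biUnion_le _))
      exact_mod_cast h3
    have h3 : (Sol.card : ℝ) * K ^ (D + 1) ≤
        ((UX F (GS F A) (fun _ => K)).card : ℝ) * K ^ (D + 1) + C₃ * K ^ NN := by
      calc (Sol.card : ℝ) * K ^ (D + 1) ≤ (((UX F (GS F A) (fun _ => K)).card : ℝ) +
          ∑ S : Finset V, ((((Bx n fun _ => K).filter fun x =>
            BS F (cA A) S (cT x)).card : ℕ) : ℝ)) * K ^ (D + 1) := by gcongr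
        _ = ((UX F (GS F A) (fun _ => K)).card : ℝ) * K ^ (D + 1) +
            ∑ S : Finset V, ((((Bx n fun _ => K).filter fun x =>
              BS F (cA A) S (cT x)).card : ℕ) : ℝ) * K ^ (D + 1) := by
            rw [add_mul, Finset.sum_mul]
        _ ≤ ((UX F (GS F A) (fun _ => K)).card : ℝ) * K ^ (D + 1) +
            ∑ S : Finset V, C₂ S * K ^ NN :=
            add_le_add le_rfl (Finset.sum_le_sum fun S _ => hbad S K hK1)
        _ = _ := by rw [← Finset.sum_mul]
    have hDsum : NN = D + ∑ v, a v := by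
      rw [hNN, hD, ← Pool.Agent.N868.MM.sum_dg F, ← Finset.sum_add_distrib]
      exact Finset.sum_congr rfl fun v _ => by rw [← ha v, add_comm]
    have hNm : Nm a (fun _ : V => K) = K ^ (∑ v, a v) := by
      unfold Nm
      rw [Finset.prod_pow_eq_pow_sum]
    have h4 := hpig K hK1
    rw [← hD] at h4
    have h5 : K ^ NN * K ≤ C₁ * (((UX F (GS F A) (fun _ => K)).card : ℝ) * K ^ (D + 1) +
        C₃ * K ^ NN) := by
      calc K ^ NN * K ≤ (C₁ * K ^ D * (Sol.card : ℝ)) * K := by gcongr
        _ = C₁ * ((Sol.card : ℝ) * K ^ (D + 1)) := by ring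
        _ ≤ _ := by gcongr
    have h6 : C₁ * (C₃ * K ^ NN) ≤ K ^ NN * K / 2 := by
      calc C₁ * (C₃ * K ^ NN) = (2 * C₁ * C₃) * K ^ NN / 2 := by ring
        _ ≤ K * K ^ NN / 2 := by
            gcongr
            linarith
        _ = _ := by ring
    have h7 : K ^ NN * K / 2 ≤ C₁ * (((UX F (GS F A) (fun _ => K)).card : ℝ) * K ^ (D + 1)) := by
      rw [mul_add] at h5
      linarith
    rw [hNm, div_mul_eq_mul_div, one_mul, div_le_iff₀ (by positivity)]
    have h8 : K ^ NN * K / 2 = K ^ (∑ v, a v) / 2 * K ^ (D + 1) := by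
      rw [hDsum, pow_add, pow_succ]
      ring
    rw [h8] at h7
    have h9 : K ^ (∑ v, a v) / 2 ≤ C₁ * ((UX F (GS F A) (fun _ => K)).card : ℝ) := by
      apply le_of_mul_le_mul_right _ (by positivity : 0 < K ^ (D + 1))
      calc K ^ (∑ v, a v) / 2 * K ^ (D + 1) ≤ _ := h7
        _ = _ := by ring
    linarith

end Pool.Agent.N482.EL
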